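import Mathlib

/-!
# MP_1b21e4_co: for every `k ≥ 5` there is a sphere in `S(k-1,2k-1)` with `g_k = 1` which is not
isomorphic to any `K(i,2k-1)`

The sphere is the join of the boundary complexes of a `(k-1)`-simplex, a `(k-2)`-simplex and a
`3`-simplex.
-/

set_option autoImplicit false
set_option linter.unusedSectionVars false
set_option linter.unusedSimpArgs false

open Finset

namespace Pool.Agent.Results.MP_1b21e4_co.ThreeJoin

/-! ### Definitions -/

/-- A finite abstract simplicial complex on the vertex set `V`, containing every singleton. -/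
structure Cplx (V : Type) [Fintype V] [DecidableEq V] where
  /-- the faces -/
  faces : Finset (Finset V)
  empty_mem : ∅ ∈ faces
  down : ∀ σ ∈ faces, ∀ τ ⊆ σ, τ ∈ faces
  single_mem : ∀ v : V, {v} ∈ faces

section defs

variable {V : Type} [Fintype V] [DecidableEq V]

/-- The link of `σ`. -/
def link (X : Finset (Finset V)) (σ : Finset V) : Finset (Finset V) :=
  X.filter fun τ => τ ∪ σ ∈ X ∧ Disjoint τ σ

/-- Chains over `ℤ/2`: functions supported on the faces with `s` elements. -/
def chains (X : Finset (Finset V)) (s : ℕ) : Submodule (ZMod 2) (Finset V → ZMod 2) where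
  carrier := {c | ∀ σ, c σ ≠ 0 → σ ∈ X ∧ σ.card = s}
  add_mem' := by
    intro a b ha hb σ h
    by_cases h1 : a σ = 0
    · apply hb
      intro h2
      apply h
      simp [h1, h2]
    · exact ha σ h1
  zero_mem' := by
    intro σ h
    exact absurd rfl h
  smul_mem' := by
    intro r c hc σ h
    apply hc
    intro h1
    apply h
    simp [h1]

/-- The simplicial boundary map over `ℤ/2`: the coefficient of `∂c` at `ρ` is the sum of the
coefficients of `c` at the sets `ρ ∪ {v}`, `v ∉ ρ`. The empty face is included, so this computes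
reduced homology. -/
def bd : (Finset V → ZMod 2) →ₗ[ZMod 2] (Finset V → ZMod 2) where
  toFun c ρ := ∑ v ∈ ρᶜ, c (insert v ρ)
  map_add' := by
    intro a b
    funext ρ
    simp [Finset.sum_add_distrib]
  map_smul' := by
    intro r c
    funext ρ
    simp [Finset.mul_sum]

/-- Cycles supported on the faces with `s` elements. -/
def cycles (X : Finset (Finset V)) (s : ℕ) : Submodule (ZMod 2) (Finset V → ZMod 2) :=
  chains X s ⊓ LinearMap.ker bd

/-- Boundaries supported on the faces with `s` elements. -/
def boundaries (X : Finset (Finset V)) (s : ℕ) : Submodule (ZMod 2) (Finset V → ZMod 2) :=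
  (chains X (s + 1)).map bd

/-- The dimension over `ℤ/2` of the reduced homology of `X` in dimension `s - 1` (cycles on the
faces with `s` elements modulo boundaries). -/
noncomputable def betti (X : Finset (Finset V)) (s : ℕ) : ℕ :=
  Module.finrank (ZMod 2) (cycles X s ⧸ (boundaries X s).submoduleOf (cycles X s))

/-- `X` is a `ℤ/2`-homology sphere of dimension `d - 1`: it is pure of dimension `d - 1` and the
link of every face `σ`, `σ = ∅` included, has the reduced `ℤ/2`-homology of a sphere of dimension
`d - 1 - |σ|`. -/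
def IsSphere (d : ℕ) (X : Cplx V) : Prop :=
  (∀ σ ∈ X.faces, ∃ τ ∈ X.faces, σ ⊆ τ ∧ τ.card = d) ∧
  (∀ σ ∈ X.faces, σ.card ≤ d) ∧
  ∀ σ ∈ X.faces, ∀ s, betti (link X.faces σ) s = if s + σ.card = d then 1 else 0

/-- `τ` is a missing face of `X`. -/
def IsMissing (X : Cplx V) (τ : Finset V) : Prop := τ ∉ X.faces ∧ ∀ ρ, ρ ⊂ τ → ρ ∈ X.faces

/-- The class `S(j, d - 1)`: the `(d - 1)`-spheres all of whose missing faces have dimension at
most `j`, that is, at most `j + 1` elements. -/
def InS (j d : ℕ) (X : Cplx V) : Prop :=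
  IsSphere d X ∧ ∀ τ, IsMissing X τ → τ.card ≤ j + 1

/-- The `h`-polynomial `∑ h_i x^i = ∑ f_{i-1} x^i (1-x)^{d-i}` of a complex of dimension `d - 1`
(this is the reversed form of `∑ h_i x^{d-i} = ∑ f_{i-1} (x-1)^{d-i}`); the sum is over all faces,
the empty face included. -/
noncomputable def hPoly (d : ℕ) (X : Cplx V) : Polynomial ℤ :=
  ∑ σ ∈ X.faces, Polynomial.X ^ σ.card * (1 - Polynomial.X) ^ (d - σ.card)

/-- The `g`-number `g_j = h_j - h_{j-1}` (`j ≥ 1`). -/
noncomputable def gNum (d : ℕ) (X : Cplx V) (j : ℕ) : ℤ :=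
  (hPoly d X).coeff j - (hPoly d X).coeff (j - 1)

end defs

/-- Isomorphism of complexes: a bijection of the vertex sets which maps faces onto faces. -/
def Iso {V W : Type} [Fintype V] [DecidableEq V] [Fintype W] [DecidableEq W]
    (X : Cplx V) (Y : Cplx W) : Prop :=
  ∃ e : V ≃ W, ∀ σ : Finset V, σ ∈ X.faces ↔ σ.map e.toEmbedding ∈ Y.faces

/-- The vertex set of the join of the boundaries of simplices with `b j` vertices, `j < m`. -/
abbrev JV {m : ℕ} (b : Fin m → ℕ) : Type := (j : Fin m) × Fin (b j)

/-- The vertex set of the `j`-th simplex. -/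
def block {m : ℕ} (b : Fin m → ℕ) (j : Fin m) : Finset (JV b) :=
  Finset.univ.filter fun x => x.1 = j

/-- The join of the boundary complexes of simplices with `b j ≥ 2` vertices, `j < m`: the sets of
vertices containing none of the sets `block b j`. -/
def joinBd {m : ℕ} (b : Fin m → ℕ) (hb : ∀ j, 2 ≤ b j) : Cplx (JV b) where
  faces := Finset.univ.filter fun σ => ∀ j, ¬ block b j ⊆ σ
  empty_mem := by
    simp only [Finset.mem_filter, Finset.mem_univ, true_and]
    intro j h
    have h1 : (⟨j, ⟨0, by have := hb j; omega⟩⟩ : JV b) ∈ block b j := by simp [block]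
    exact absurd (h h1) (by simp)
  down := by
    intro σ hσ τ hτ
    simp only [Finset.mem_filter, Finset.mem_univ, true_and] at hσ ⊢
    intro j h
    exact hσ j (h.trans hτ)
  single_mem := by
    intro v
    simp only [Finset.mem_filter, Finset.mem_univ, true_and]
    intro j h
    have hj := hb j
    have h0 : (⟨j, ⟨0, by omega⟩⟩ : JV b) ∈ block b j := by simp [block]
    have h1 : (⟨j, ⟨1, by omega⟩⟩ : JV b) ∈ block b j := by simp [block]
    have e0 := Finset.mem_singleton.1 (h h0)
    have e1 := Finset.mem_singleton.1 (h h1)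
    have := e0.trans e1.symm
    simp at this

/-- The block sizes of `K(i, d - 1)`: with `d = q i + r`, `1 ≤ r ≤ i`, there are `q` blocks of size
`i + 1` and a last one of size `r + 1`. Here `q = (d - 1) / i`. -/
def kSizes (i d : ℕ) (j : Fin ((d - 1) / i + 1)) : ℕ :=
  if (j : ℕ) < (d - 1) / i then i + 1 else d - (d - 1) / i * i + 1

theorem kSizes_ge {i d : ℕ} (hi : 1 ≤ i) (hd : 1 ≤ d) (j : Fin ((d - 1) / i + 1)) :
    2 ≤ kSizes i d j := by
  unfold kSizes
  split_ifs
  · omega
  · have := Nat.div_mul_le_self (d - 1) i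
    omega

/-- The complex `K(i, d - 1) = (∂σ^i)^{*q} * ∂σ^r`. -/
def K (i d : ℕ) (hi : 1 ≤ i) (hd : 1 ≤ d) : Cplx (JV (kSizes i d)) :=
  joinBd (kSizes i d) (kSizes_ge hi hd)

/-- The block sizes of the example: `k`, `k - 1` and `4`. -/
def exSizes (k : ℕ) : Fin 3 → ℕ := ![k, k - 1, 4]

theorem exSizes_ge {k : ℕ} (hk : 5 ≤ k) (j : Fin 3) : 2 ≤ exSizes k j := by
  fin_cases j <;> simp [exSizes] <;> omega

/-! ### Homology of joins of boundaries of simplices -/

section hom

variable {V : Type} [Fintype V] [DecidableEq V]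

/-- elementwise form of: `X` has the homology of a sphere of dimension `m - 1` -/
def Sph (X : Finset (Finset V)) (m : ℕ) : Prop :=
  (∀ s, s ≠ m → ∀ c ∈ cycles X s, c ∈ boundaries X s) ∧
  ∃ z ∈ cycles X m, z ∉ boundaries X m ∧
    ∀ c ∈ cycles X m, c ∈ boundaries X m ∨ c - z ∈ boundaries X m

/-- elementwise acyclicity -/
def Acy (X : Finset (Finset V)) : Prop := ∀ s, ∀ c ∈ cycles X s, c ∈ boundaries X s

theorem mem_chains {X : Finset (Finset V)} {s : ℕ} {c : Finset V → ZMod 2} :
    c ∈ chains X s ↔ ∀ σ, c σ ≠ 0 → σ ∈ X ∧ σ.card = s := Iff.rfl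

theorem mem_cycles {X : Finset (Finset V)} {s : ℕ} {c : Finset V → ZMod 2} :
    c ∈ cycles X s ↔ c ∈ chains X s ∧ bd c = 0 := by
  simp [cycles, LinearMap.mem_ker]

theorem mem_boundaries {X : Finset (Finset V)} {s : ℕ} {c : Finset V → ZMod 2} :
    c ∈ boundaries X s ↔ ∃ b ∈ chains X (s + 1), bd b = c := by
  simp [boundaries, Submodule.mem_map]

theorem bd_apply (c : Finset V → ZMod 2) (ρ : Finset V) :
    bd c ρ = ∑ v ∈ ρᶜ, c (insert v ρ) := rfl

/-- the part of `c` on the sets containing `v`, with `v` removed -/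
def lp (v : V) (c : Finset V → ZMod 2) : Finset V → ZMod 2 :=
  fun τ => if v ∈ τ then 0 else c (insert v τ)

/-- the part of `c` on the sets not containing `v` -/
def dp (v : V) (c : Finset V → ZMod 2) : Finset V → ZMod 2 :=
  fun τ => if v ∈ τ then 0 else c τ

/-- the cone with apex `v` over `e` -/
def cone (v : V) (e : Finset V → ZMod 2) : Finset V → ZMod 2 :=
  fun τ => if v ∈ τ then e (τ.erase v) else 0

theorem bd_mem {v : V} {ρ : Finset V} (h : v ∈ ρ) (c : Finset V → ZMod 2) :
    bd c ρ = bd (lp v c) (ρ.erase v) := by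
  rw [bd_apply, bd_apply]
  have h1 : (ρ.erase v)ᶜ = insert v ρᶜ := by
    ext x
    by_cases hx : x = v
    · simp [hx]
    · simp [hx]
  rw [h1, Finset.sum_insert (by simpa using h)]
  have h2 : lp v c (insert v (ρ.erase v)) = 0 := by simp [lp]
  rw [h2, zero_add]
  apply Finset.sum_congr rfl
  intro w hw
  have hw' : w ∉ ρ := by simpa using hw
  have hwv : v ≠ w := by rintro rfl; exact hw' h
  have h3 : v ∉ insert w (ρ.erase v) := by simp [hwv]
  simp only [lp, h3, if_false]
  congr 1
  ext x
  simp only [Finset.mem_insert, Finset.mem_erase]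
  constructor
  · rintro (rfl | hx)
    · right; left; rfl
    · by_cases hxv : x = v
      · left; exact hxv
      · right; right; exact ⟨hxv, hx⟩
  · rintro (rfl | rfl | ⟨_, hx⟩)
    · right; exact h
    · left; rfl
    · right; exact hx

theorem bd_not_mem {v : V} {ρ : Finset V} (h : v ∉ ρ) (c : Finset V → ZMod 2) :
    bd c ρ = bd (dp v c) ρ + lp v c ρ := by
  rw [bd_apply, bd_apply]
  have hv : v ∈ ρᶜ := by simpa using h
  rw [← Finset.add_sum_erase _ _ hv, ← Finset.add_sum_erase _ (fun w => dp v c (insert w ρ)) hv]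
  have h1 : dp v c (insert v ρ) = 0 := by simp [dp]
  have h2 : lp v c ρ = c (insert v ρ) := by simp [lp, h]
  rw [h1, h2, zero_add, add_comm]
  congr 1
  apply Finset.sum_congr rfl
  intro w hw
  have hwv : v ≠ w := by
    rintro rfl
    simp at hw
  have h3 : v ∉ insert w ρ := by simp [hwv, h]
  simp [dp, h3]

theorem lp_cone {v : V} {e : Finset V → ZMod 2} (he : ∀ τ, v ∈ τ → e τ = 0) :
    lp v (cone v e) = e := by
  funext τ
  by_cases h : v ∈ τ
  · simp [lp, h, he τ h]
  · simp [lp, cone, h]

theorem dp_cone {v : V} {e : Finset V → ZMod 2} : dp v (cone v e) = 0 := by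
  funext τ
  by_cases h : v ∈ τ
  · simp [dp, h]
  · simp [dp, cone, h]

theorem lp_zero_of_mem {v : V} (c : Finset V → ZMod 2) (τ : Finset V) (h : v ∈ τ) :
    lp v c τ = 0 := by simp [lp, h]

theorem lp_add {v : V} (a b : Finset V → ZMod 2) : lp v (a + b) = lp v a + lp v b := by
  funext τ
  by_cases h : v ∈ τ <;> simp [lp, h]

theorem lp_sub {v : V} (a b : Finset V → ZMod 2) : lp v (a - b) = lp v a - lp v b := by
  funext τ
  by_cases h : v ∈ τ <;> simp [lp, h]

/-- a function vanishing on the sets containing `v` has `bd` with the same property -/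
theorem bd_vanish {v : V} {e : Finset V → ZMod 2} (he : ∀ τ, v ∈ τ → e τ = 0) (τ : Finset V)
    (h : v ∈ τ) : bd e τ = 0 := by
  rw [bd_mem h]
  have : lp v e = 0 := by
    funext σ
    by_cases h : v ∈ σ
    · simp [lp, h]
    · simp [lp, h, he _ (Finset.mem_insert_self v σ)]
  rw [this, map_zero]
  rfl

/-- deletion of `v` -/
def del (X : Finset (Finset V)) (v : V) : Finset (Finset V) := X.filter fun τ => v ∉ τ

theorem mem_link {X : Finset (Finset V)} {σ τ : Finset V} :
    τ ∈ link X σ ↔ τ ∈ X ∧ τ ∪ σ ∈ X ∧ Disjoint τ σ := by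
  simp [link]

theorem mem_link_single {X : Finset (Finset V)} (hX : ∀ σ ∈ X, ∀ τ ⊆ σ, τ ∈ X) {v : V}
    {τ : Finset V} : τ ∈ link X {v} ↔ insert v τ ∈ X ∧ v ∉ τ := by
  rw [mem_link]
  constructor
  · rintro ⟨_, h2, h3⟩
    refine ⟨?_, by simpa using h3⟩
    rwa [Finset.union_comm, ← Finset.insert_eq] at h2
  · rintro ⟨h1, h2⟩
    refine ⟨hX _ h1 _ (Finset.subset_insert _ _), ?_, by simpa using h2⟩
    rwa [Finset.union_comm, ← Finset.insert_eq]

theorem lp_chain {X : Finset (Finset V)} (hX : ∀ σ ∈ X, ∀ τ ⊆ σ, τ ∈ X) {v : V} {s : ℕ}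
    {c : Finset V → ZMod 2} (hc : c ∈ chains X (s + 1)) : lp v c ∈ chains (link X {v}) s := by
  rw [mem_chains] at hc ⊢
  intro σ h
  by_cases hv : v ∈ σ
  · simp [lp, hv] at h
  · simp only [lp, hv, if_false] at h
    obtain ⟨h1, h2⟩ := hc _ h
    refine ⟨(mem_link_single hX).2 ⟨h1, hv⟩, ?_⟩
    rw [Finset.card_insert_of_notMem hv] at h2
    omega

theorem cone_chain {X : Finset (Finset V)} (hX : ∀ σ ∈ X, ∀ τ ⊆ σ, τ ∈ X) {v : V} {s : ℕ}
    {e : Finset V → ZMod 2} (he : e ∈ chains (link X {v}) s) : cone v e ∈ chains X (s + 1) := by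
  rw [mem_chains] at he ⊢
  intro σ h
  by_cases hv : v ∈ σ
  · simp only [cone, hv, if_true] at h
    obtain ⟨h1, h2⟩ := he _ h
    have h3 := (mem_link_single hX).1 h1
    rw [Finset.insert_erase hv] at h3
    refine ⟨h3.1, ?_⟩
    rw [Finset.card_erase_of_mem hv] at h2
    have := Finset.card_pos.2 ⟨v, hv⟩
    omega
  · simp [cone, hv] at h

theorem chains_mono {X Y : Finset (Finset V)} (h : X ⊆ Y) (s : ℕ) : chains X s ≤ chains Y s := by
  intro c hc
  rw [mem_chains] at hc ⊢
  intro σ hσ
  exact ⟨h (hc σ hσ).1, (hc σ hσ).2⟩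

theorem link_vanish {X : Finset (Finset V)} {v : V} {s : ℕ} {e : Finset V → ZMod 2}
    (he : e ∈ chains (link X {v}) s) (τ : Finset V) (h : v ∈ τ) : e τ = 0 := by
  by_contra h1
  have := (he τ h1).1
  rw [mem_link] at this
  have h2 := this.2.2
  simp at h2
  exact h2 h

theorem link_sub_del (X : Finset (Finset V)) (v : V) : link X {v} ⊆ del X v := by
  intro τ h
  rw [mem_link] at h
  simp only [del, Finset.mem_filter]
  exact ⟨h.1, by simpa using h.2.2⟩

/-- key step -/
theorem boundary_of_lp {X : Finset (Finset V)} (hX : ∀ σ ∈ X, ∀ τ ⊆ σ, τ ∈ X) {v : V}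
    (hD : Acy (del X v)) {s : ℕ} {c : Finset V → ZMod 2} (hc : c ∈ cycles X (s + 1))
    (h : lp v c ∈ boundaries (link X {v}) s) : c ∈ boundaries X (s + 1) := by
  obtain ⟨e, he, hbe⟩ := mem_boundaries.1 h
  rw [mem_cycles] at hc
  have hev := link_vanish he
  set b := cone v e with hb
  have hbc : b ∈ chains X (s + 1 + 1) := cone_chain hX he
  -- c - bd b is supported off v
  set c' := c - bd b with hc'
  have hlp : lp v c' = 0 := by
    rw [hc', lp_sub]
    have : lp v (bd b) = lp v c := by
      funext τ
      by_cases hv : v ∈ τ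
      · rw [lp_zero_of_mem _ _ hv, lp_zero_of_mem _ _ hv]
      · have h1 : lp v (bd b) τ = bd b (insert v τ) := by simp [lp, hv]
        rw [h1, bd_mem (Finset.mem_insert_self v τ), hb, lp_cone hev, hbe,
          Finset.erase_insert hv]
    rw [this, sub_self]
  have hbd : bd c' = 0 := by
    rw [hc', map_sub, hc.2]
    have : bd (bd b) = 0 := by
      -- use the structure of the cone
      funext ρ
      by_cases hv : v ∈ ρ
      · rw [bd_mem hv]
        have : lp v (bd b) = lp v c := by
          funext τ
          by_cases hv : v ∈ τ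
          · rw [lp_zero_of_mem _ _ hv, lp_zero_of_mem _ _ hv]
          · have h1 : lp v (bd b) τ = bd b (insert v τ) := by simp [lp, hv]
            rw [h1, bd_mem (Finset.mem_insert_self v τ), hb, lp_cone hev, hbe,
              Finset.erase_insert hv]
        rw [this, ← bd_mem hv, hc.2]
      · rw [bd_not_mem hv]
        have h1 : dp v (bd b) = e := by
          funext τ
          by_cases hvt : v ∈ τ
          · simp [dp, hvt, hev τ hvt]
          · have : dp v (bd b) τ = bd b τ := by simp [dp, hvt]
            rw [this, bd_not_mem hvt, hb, dp_cone, map_zero, lp_cone hev]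
            simp
        have h2 : lp v (bd b) ρ = bd e ρ := by
          have : lp v (bd b) ρ = bd b (insert v ρ) := by simp [lp, hv]
          rw [this, bd_mem (Finset.mem_insert_self v ρ), hb, lp_cone hev, Finset.erase_insert hv]
        rw [h1, h2]
        have : ∀ a : ZMod 2, a + a = 0 := by decide
        exact this _
    rw [this, sub_zero]
  have hch : c' ∈ chains (del X v) (s + 1) := by
    rw [mem_chains]
    intro σ hσ
    have hvσ : v ∉ σ := by
      intro hv
      apply hσ
      have h1 : lp v c' (σ.erase v) = 0 := by rw [hlp]; rfl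
      have h2 : lp v c' (σ.erase v) = c' σ := by
        simp [lp, Finset.insert_erase hv]
      rw [← h2, h1]
    have h3 : c' σ = c σ - bd b σ := rfl
    have h4 : bd b σ = e σ := by
      rw [bd_not_mem hvσ, hb, dp_cone, map_zero, lp_cone hev]
      simp
    rw [h3, h4] at hσ
    by_cases h5 : c σ = 0
    · have h6 : e σ ≠ 0 := by
        intro h7
        apply hσ
        rw [h5, h7, sub_zero]
      have h7 := he σ h6
      exact ⟨link_sub_del X v h7.1, h7.2⟩
    · have h6 := hc.1 σ h5
      refine ⟨?_, h6.2⟩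
      simp only [del, Finset.mem_filter]
      exact ⟨h6.1, hvσ⟩
  have h8 := hD (s + 1) c' (mem_cycles.2 ⟨hch, hbd⟩)
  obtain ⟨b', hb', hbb'⟩ := mem_boundaries.1 h8
  refine mem_boundaries.2 ⟨b + b', Submodule.add_mem _ hbc
    (chains_mono (Finset.filter_subset _ _) _ hb'), ?_⟩
  rw [map_add, hbb', hc']
  abel

theorem lp_cycle {X : Finset (Finset V)} (hX : ∀ σ ∈ X, ∀ τ ⊆ σ, τ ∈ X) {v : V} {s : ℕ}
    {c : Finset V → ZMod 2} (hc : c ∈ cycles X (s + 1)) : lp v c ∈ cycles (link X {v}) s := by
  rw [mem_cycles] at hc ⊢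
  refine ⟨lp_chain hX hc.1, ?_⟩
  funext ρ
  by_cases hv : v ∈ ρ
  · rw [bd_vanish (fun τ h => lp_zero_of_mem c τ h) ρ hv]; rfl
  · have h1 := bd_mem (Finset.mem_insert_self v ρ) c
    rw [hc.2, Finset.erase_insert hv] at h1
    rw [← h1]; rfl

theorem Sph.step {X : Finset (Finset V)} (hX : ∀ σ ∈ X, ∀ τ ⊆ σ, τ ∈ X) {v : V} {m : ℕ}
    (hL : Sph (link X {v}) m) (hD : Acy (del X v)) : Sph X (m + 1) := by
  obtain ⟨h1, z, hz, hzb, hz2⟩ := hL
  refine ⟨?_, ?_⟩
  · intro s hs c hc
    rcases s with _ | s
    · -- size 0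
      rw [mem_cycles] at hc
      have : c ∈ cycles (del X v) 0 := by
        rw [mem_cycles]
        refine ⟨?_, hc.2⟩
        intro σ hσ
        have := hc.1 σ hσ
        refine ⟨?_, this.2⟩
        simp only [del, Finset.mem_filter]
        refine ⟨this.1, ?_⟩
        rw [Finset.card_eq_zero.1 this.2]
        simp
      obtain ⟨b, hb, hbb⟩ := mem_boundaries.1 (hD 0 c this)
      exact mem_boundaries.2 ⟨b, chains_mono (Finset.filter_subset _ _) _ hb, hbb⟩
    · exact boundary_of_lp hX hD hc (h1 s (by omega) _ (lp_cycle hX hc))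
  · -- the new cycle
    have hzv := link_vanish (mem_cycles.1 hz).1
    have hz' : z ∈ cycles (del X v) m := by
      rw [mem_cycles] at hz ⊢
      exact ⟨chains_mono (link_sub_del X v) _ hz.1, hz.2⟩
    obtain ⟨w, hw, hbw⟩ := mem_boundaries.1 (hD m z hz')
    have hwv : ∀ τ, v ∈ τ → w τ = 0 := by
      intro τ hτ
      by_contra h
      have := (hw τ h).1
      simp only [del, Finset.mem_filter] at this
      exact this.2 hτ
    have hlpw : lp v w = 0 := by
      funext τ
      by_cases h : v ∈ τ
      · simp [lp, h]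
      · simp [lp, h, hwv _ (Finset.mem_insert_self v τ)]
    have hlp : lp v (cone v z + w) = z := by rw [lp_add, lp_cone hzv, hlpw, add_zero]
    refine ⟨cone v z + w, ?_, ?_, ?_⟩
    · rw [mem_cycles]
      refine ⟨Submodule.add_mem _ (cone_chain hX (mem_cycles.1 hz).1)
        (chains_mono (Finset.filter_subset _ _) _ hw), ?_⟩
      funext ρ
      by_cases hv : v ∈ ρ
      · rw [bd_mem hv, hlp, (mem_cycles.1 hz).2]; rfl
      · rw [map_add, Pi.add_apply, bd_not_mem hv, dp_cone, map_zero, lp_cone hzv, hbw]
        have : ∀ a : ZMod 2, a + a = 0 := by decide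
        simp [this]
    · intro h
      obtain ⟨b, hb, hbb⟩ := mem_boundaries.1 h
      apply hzb
      refine mem_boundaries.2 ⟨lp v b, lp_chain hX hb, ?_⟩
      funext ρ
      by_cases hv : v ∈ ρ
      · rw [bd_vanish (fun τ h => lp_zero_of_mem b τ h) ρ hv, hzv ρ hv]
      · have h3 := bd_mem (Finset.mem_insert_self v ρ) b
        rw [hbb, Finset.erase_insert hv] at h3
        rw [← h3]
        have h4 : lp v (cone v z + w) ρ = (cone v z + w) (insert v ρ) := by simp [lp, hv]
        rw [← h4, hlp]
    · intro c hc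
      rcases hz2 _ (lp_cycle hX hc) with h | h
      · left; exact boundary_of_lp hX hD hc h
      · right
        refine boundary_of_lp hX hD (Submodule.sub_mem _ hc ?_) ?_
        · rw [mem_cycles]
          refine ⟨Submodule.add_mem _ (cone_chain hX (mem_cycles.1 hz).1)
            (chains_mono (Finset.filter_subset _ _) _ hw), ?_⟩
          funext ρ
          by_cases hv : v ∈ ρ
          · rw [bd_mem hv, hlp, (mem_cycles.1 hz).2]; rfl
          · rw [map_add, Pi.add_apply, bd_not_mem hv, dp_cone, map_zero, lp_cone hzv, hbw]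
            have : ∀ a : ZMod 2, a + a = 0 := by decide
            simp [this]
        · rw [lp_sub, hlp]; exact h

/-- cones are acyclic -/
theorem acy_cone {X : Finset (Finset V)} {u : V} (hu : ∀ τ ∈ X, insert u τ ∈ X) : Acy X := by
  intro s c hc
  rw [mem_cycles] at hc
  refine mem_boundaries.2 ⟨cone u (dp u c), ?_, ?_⟩
  · rw [mem_chains]
    intro σ h
    by_cases hv : u ∈ σ
    · simp only [cone, hv, if_true, dp, Finset.notMem_erase, if_false] at h
      obtain ⟨h1, h2⟩ := hc.1 _ h
      have h3 := hu _ h1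
      rw [Finset.insert_erase hv] at h3
      refine ⟨h3, ?_⟩
      rw [Finset.card_erase_of_mem hv] at h2
      have := Finset.card_pos.2 ⟨u, hv⟩
      omega
    · simp [cone, hv] at h
  · have hdv : ∀ τ, u ∈ τ → dp u c τ = 0 := fun τ h => by simp [dp, h]
    funext ρ
    by_cases hv : u ∈ ρ
    · rw [bd_mem hv, lp_cone hdv]
      have h1 := bd_not_mem (Finset.notMem_erase u ρ) c
      rw [hc.2] at h1
      have h2 : lp u c (ρ.erase u) = c ρ := by simp [lp, Finset.insert_erase hv]
      rw [h2] at h1
      have : ∀ a b : ZMod 2, 0 = a + b → a = b := by decide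
      exact this _ _ h1
    · rw [bd_not_mem hv, dp_cone, map_zero, lp_cone hdv]
      simp [dp, hv]

/-- The complex on the vertex set `W` of the subsets of `W` containing none of the sets `B j`. -/
def J {ι : Type} [Fintype ι] (W : Finset V) (B : ι → Finset V) : Finset (Finset V) :=
  by classical exact W.powerset.filter fun τ => ∀ j, ¬ B j ⊆ τ

theorem mem_J {ι : Type} [Fintype ι] {W : Finset V} {B : ι → Finset V} {τ : Finset V} :
    τ ∈ J W B ↔ τ ⊆ W ∧ ∀ j, ¬ B j ⊆ τ := by
  classical
  simp [J]

theorem J_down {ι : Type} [Fintype ι] {W : Finset V} {B : ι → Finset V} :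
    ∀ σ ∈ J W B, ∀ τ ⊆ σ, τ ∈ J W B := by
  intro σ hσ τ hτ
  rw [mem_J] at hσ ⊢
  exact ⟨hτ.trans hσ.1, fun j h => hσ.2 j (h.trans hτ)⟩

/-- `J W B` has the homology of a sphere of dimension `∑ (|B j| - 1) - 1` when the `B j` are
nonempty, disjoint and cover `W`. -/
theorem sph_J {ι : Type} [Fintype ι] [DecidableEq ι] : ∀ (m : ℕ) (W : Finset V)
    (B : ι → Finset V), (∀ j, (B j).Nonempty) → (∀ i j, i ≠ j → Disjoint (B i) (B j)) →
    (∀ x, x ∈ W ↔ ∃ j, x ∈ B j) → (∑ j, ((B j).card - 1) = m) → Sph (J W B) m := by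
  intro m
  induction m with
  | zero =>
    intro W B hB hd hW hs
    have h1 : ∀ j, (B j).card = 1 := by
      intro j
      have h2 : (B j).card - 1 = 0 := by
        have := Finset.sum_eq_zero_iff.1 hs j (Finset.mem_univ j)
        exact this
      have h3 := Finset.card_pos.2 (hB j)
      omega
    -- J = {∅}
    have h2 : ∀ τ ∈ J W B, τ = ∅ := by
      intro τ hτ
      rw [mem_J] at hτ
      by_contra h
      obtain ⟨x, hx⟩ := Finset.nonempty_iff_ne_empty.2 h
      obtain ⟨j, hj⟩ := (hW x).1 (hτ.1 hx)
      apply hτ.2 j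
      intro y hy
      obtain ⟨a, ha⟩ := Finset.card_eq_one.1 (h1 j)
      rw [ha] at hj hy
      rw [Finset.mem_singleton] at hj hy
      rw [hy, ← hj]
      exact hx
    have h3 : ∅ ∈ J W B := by
      rw [mem_J]
      refine ⟨Finset.empty_subset _, fun j h => ?_⟩
      exact (hB j).ne_empty (Finset.subset_empty.1 h)
    have hbz : ∀ c : Finset V → ZMod 2, (∀ σ, c σ ≠ 0 → σ = ∅) → bd c = 0 := by
      intro c hc
      funext ρ
      rw [bd_apply]
      apply Finset.sum_eq_zero
      intro v _
      by_contra h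
      exact absurd (hc _ h) (Finset.insert_ne_empty _ _)
    have hch : ∀ s c, c ∈ chains (J W B) (s + 1) → c = 0 := by
      intro s c hc
      funext σ
      by_contra h
      obtain ⟨h4, h5⟩ := hc σ h
      rw [h2 σ h4] at h5
      simp at h5
    refine ⟨?_, ?_⟩
    · intro s hs c hc
      obtain ⟨s, rfl⟩ := Nat.exists_eq_succ_of_ne_zero hs
      rw [mem_cycles] at hc
      rw [hch s c hc.1]
      exact Submodule.zero_mem _
    · refine ⟨fun σ => if σ = ∅ then 1 else 0, ?_, ?_, ?_⟩
      · rw [mem_cycles]
        refine ⟨?_, hbz _ ?_⟩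
        · intro σ h
          have : σ = ∅ := by
            by_contra h4
            simp [h4] at h
          subst this
          exact ⟨h3, rfl⟩
        · intro σ h
          by_contra h4
          simp [h4] at h
      · intro h
        obtain ⟨b, hb, hbb⟩ := mem_boundaries.1 h
        rw [hch 0 b hb, map_zero] at hbb
        have := congrFun hbb ∅
        simp at this
      · intro c hc
        rw [mem_cycles] at hc
        have hz : ∀ σ, σ ≠ ∅ → c σ = 0 := by
          intro σ hσ
          by_contra h
          exact hσ (h2 σ (hc.1 σ h).1)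
        have h01 : ∀ a : ZMod 2, a = 0 ∨ a = 1 := by decide
        rcases h01 (c ∅) with h | h
        · left
          have : c = 0 := by
            funext σ
            by_cases hσ : σ = ∅
            · rw [hσ, h]; rfl
            · rw [hz σ hσ]; rfl
          rw [this]
          exact Submodule.zero_mem _
        · right
          have : c - (fun σ => if σ = ∅ then (1 : ZMod 2) else 0) = 0 := by
            funext σ
            by_cases hσ : σ = ∅
            · rw [hσ, Pi.sub_apply, h]; simp
            · rw [Pi.sub_apply, hz σ hσ]; simp [hσ]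
          rw [this]
          exact Submodule.zero_mem _
  | succ m ih =>
    intro W B hB hd hW hs
    -- choose a block with at least two elements
    have h1 : ∃ j, 2 ≤ (B j).card := by
      by_contra h
      push Not at h
      have : ∑ j, ((B j).card - 1) = 0 := by
        apply Finset.sum_eq_zero
        intro j _
        have := h j
        omega
      omega
    obtain ⟨j₀, hj₀⟩ := h1
    obtain ⟨v, hv⟩ := hB j₀
    have hvW : v ∈ W := (hW v).2 ⟨j₀, hv⟩
    have hvne : ∀ j, j ≠ j₀ → v ∉ B j := by
      intro j hj h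
      exact (Finset.disjoint_left.1 (hd j j₀ hj) h) hv
    set B' : ι → Finset V := fun j => if j = j₀ then (B j₀).erase v else B j with hB'
    have hcard : ((B j₀).erase v).card = (B j₀).card - 1 := Finset.card_erase_of_mem hv
    have hlink : link (J W B) {v} = J (W.erase v) B' := by
      ext τ
      rw [mem_link_single J_down, mem_J, mem_J]
      constructor
      · rintro ⟨⟨h1, h2⟩, h3⟩
        refine ⟨?_, ?_⟩
        · intro x hx
          rw [Finset.mem_erase]
          exact ⟨fun h => h3 (h ▸ hx), h1 (Finset.mem_insert_of_mem hx)⟩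
        · intro j h
          by_cases hj : j = j₀
          · simp only [hB', hj, if_true] at h
            apply h2 j₀
            intro x hx
            by_cases hxv : x = v
            · rw [hxv]; exact Finset.mem_insert_self _ _
            · exact Finset.mem_insert_of_mem (h (Finset.mem_erase.2 ⟨hxv, hx⟩))
          · simp only [hB', hj, if_false] at h
            exact h2 j (h.trans (Finset.subset_insert _ _))
      · rintro ⟨h1, h2⟩
        have h3 : v ∉ τ := fun h => (Finset.mem_erase.1 (h1 h)).1 rfl
        refine ⟨⟨?_, ?_⟩, h3⟩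
        · intro x hx
          rcases Finset.mem_insert.1 hx with rfl | hx
          · exact hvW
          · exact (Finset.mem_erase.1 (h1 hx)).2
        · intro j h
          by_cases hj : j = j₀
          · subst hj
            apply h2 j
            simp only [hB', if_true]
            intro x hx
            rw [Finset.mem_erase] at hx
            rcases Finset.mem_insert.1 (h hx.2) with h | h
            · exact absurd h hx.1
            · exact h
          · apply h2 j
            simp only [hB', hj, if_false]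
            intro x hx
            rcases Finset.mem_insert.1 (h hx) with h | h
            · exact absurd (h ▸ hx) (hvne j hj)
            · exact h
    have hne' : ((B j₀).erase v).Nonempty := by
      rw [← Finset.card_pos, hcard]; omega
    refine Sph.step J_down (v := v) ?_ ?_
    · rw [hlink]
      apply ih
      · intro j
        by_cases hj : j = j₀
        · simp only [hB', hj, if_true]; exact hne'
        · simp only [hB', hj, if_false]; exact hB j
      · intro i j hij
        have hsub : ∀ i, B' i ⊆ B i := by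
          intro i
          by_cases hi : i = j₀
          · simp only [hB', hi, if_true]; exact Finset.erase_subset _ _
          · simp only [hB', hi, if_false]; exact subset_rfl
        exact Finset.disjoint_of_subset_left (hsub i)
          (Finset.disjoint_of_subset_right (hsub j) (hd i j hij))
      · intro x
        rw [Finset.mem_erase, hW]
        constructor
        · rintro ⟨hx, j, hj⟩
          refine ⟨j, ?_⟩
          by_cases hjj : j = j₀
          · simp only [hB', hjj, if_true]
            rw [Finset.mem_erase]; exact ⟨hx, hjj ▸ hj⟩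
          · simp only [hB', hjj, if_false]; exact hj
        · rintro ⟨j, hj⟩
          by_cases hjj : j = j₀
          · simp only [hB', hjj, if_true] at hj
            rw [Finset.mem_erase] at hj
            exact ⟨hj.1, j₀, hj.2⟩
          · simp only [hB', hjj, if_false] at hj
            exact ⟨fun h => hvne j hjj (h ▸ hj), j, hj⟩
      · have h4 : ∑ j, ((B' j).card - 1) + 1 = ∑ j, ((B j).card - 1) := by
          rw [← Finset.add_sum_erase _ _ (Finset.mem_univ j₀),
            ← Finset.add_sum_erase (Finset.univ) (fun j => (B j).card - 1) (Finset.mem_univ j₀)]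
          have h5 : ∑ x ∈ Finset.univ.erase j₀, ((B' x).card - 1)
              = ∑ x ∈ Finset.univ.erase j₀, ((B x).card - 1) := by
            apply Finset.sum_congr rfl
            intro x hx
            simp only [hB', (Finset.mem_erase.1 hx).1, if_false]
          rw [h5]
          have h6 : (B' j₀).card = (B j₀).card - 1 := by
            simp only [hB', if_true]; exact hcard
          rw [h6]
          omega
        omega
    · -- deletion is a cone
      obtain ⟨u, hu⟩ := hne'
      rw [Finset.mem_erase] at hu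
      apply acy_cone (u := u)
      intro τ hτ
      simp only [del, Finset.mem_filter, mem_J] at hτ ⊢
      obtain ⟨⟨h1, h2⟩, h3⟩ := hτ
      refine ⟨⟨?_, ?_⟩, ?_⟩
      · intro x hx
        rcases Finset.mem_insert.1 hx with rfl | hx
        · exact (hW x).2 ⟨j₀, hu.2⟩
        · exact h1 hx
      · intro j h
        by_cases hj : j = j₀
        · subst hj
          rcases Finset.mem_insert.1 (h hv) with h | h
          · exact hu.1 h.symm
          · exact h3 h
        · apply h2 j
          intro x hx
          rcases Finset.mem_insert.1 (h hx) with h | h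
          · subst h
            exact absurd hu.2 (Finset.disjoint_left.1 (hd j j₀ hj) hx)
          · exact h
      · intro h
        rcases Finset.mem_insert.1 h with h | h
        · exact hu.1 h.symm
        · exact h3 h

theorem betti_of_sph {X : Finset (Finset V)} {m : ℕ} (h : Sph X m) (s : ℕ) :
    betti X s = if s = m then 1 else 0 := by
  unfold betti
  obtain ⟨h1, z, hz, hzb, hz2⟩ := h
  split_ifs with hs
  · subst hs
    rw [finrank_eq_one_iff']
    refine ⟨Submodule.Quotient.mk ⟨z, hz⟩, ?_, ?_⟩
    · intro h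
      rw [Submodule.Quotient.mk_eq_zero] at h
      exact hzb h
    · intro w
      obtain ⟨⟨c, hc⟩, rfl⟩ := Submodule.Quotient.mk_surjective _ w
      rcases hz2 c hc with h | h
      · refine ⟨0, ?_⟩
        rw [zero_smul, eq_comm, Submodule.Quotient.mk_eq_zero]
        exact h
      · refine ⟨1, ?_⟩
        rw [one_smul, eq_comm, Submodule.Quotient.eq]
        exact h
  · have : Subsingleton (cycles X s ⧸ (boundaries X s).submoduleOf (cycles X s)) := by
      rw [subsingleton_iff_forall_eq 0]
      intro w
      obtain ⟨⟨c, hc⟩, rfl⟩ := Submodule.Quotient.mk_surjective _ w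
      rw [Submodule.Quotient.mk_eq_zero]
      exact h1 s hs c hc
    exact Module.finrank_zero_of_subsingleton

end hom

/-! ### The join of boundaries of simplices is a sphere -/

section join

variable {m : ℕ} {b : Fin m → ℕ}

theorem mem_block {j : Fin m} {x : JV b} : x ∈ block b j ↔ x.1 = j := by simp [block]

theorem card_block (j : Fin m) : (block b j).card = b j := by
  have : block b j = (Finset.univ : Finset (Fin (b j))).map
      ⟨fun x => (⟨j, x⟩ : JV b), fun x y h => by simpa using h⟩ := by
    ext ⟨i, x⟩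
    simp only [mem_block, Finset.mem_map, Finset.mem_univ, true_and, Function.Embedding.coeFn_mk]
    constructor
    · rintro rfl; exact ⟨x, rfl⟩
    · rintro ⟨y, h⟩
      exact (congrArg Sigma.fst h).symm
  rw [this, Finset.card_map]
  simp

theorem mem_joinBd {hb : ∀ j, 2 ≤ b j} {σ : Finset (JV b)} :
    σ ∈ (joinBd b hb).faces ↔ ∀ j, ¬ block b j ⊆ σ := by simp [joinBd]

theorem sphere_join (hb : ∀ j, 2 ≤ b j) (d : ℕ) (hd : ∑ j, (b j - 1) = d) :
    IsSphere d (joinBd b hb) := by
  classical
  -- sizes of parts of a face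
  have hpart : ∀ σ : Finset (JV b), σ.card = ∑ j, (σ ∩ block b j).card := by
    intro σ
    rw [Finset.card_eq_sum_card_fiberwise (f := fun x : JV b => x.1) (t := Finset.univ)
      (fun x _ => Finset.mem_univ _)]
    apply Finset.sum_congr rfl
    intro j _
    congr 1
    ext x
    simp [mem_block]
  have hlt : ∀ σ ∈ (joinBd b hb).faces, ∀ j, (σ ∩ block b j).card ≤ b j - 1 := by
    intro σ hσ j
    rw [mem_joinBd] at hσ
    have h1 : σ ∩ block b j ⊂ block b j := by
      refine ⟨Finset.inter_subset_right, fun h => hσ j (h.trans Finset.inter_subset_left)⟩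
    have := Finset.card_lt_card h1
    rw [card_block] at this
    omega
  refine ⟨?_, ?_, ?_⟩
  · intro σ hσ
    have hσ' := hσ
    rw [mem_joinBd] at hσ'
    have h1 : ∀ j, ∃ x, x ∈ block b j ∧ x ∉ σ := by
      intro j
      have := hσ' j
      rw [Finset.not_subset] at this
      exact this
    choose f hf hfσ using h1
    refine ⟨Finset.univ.filter fun x => x ≠ f x.1, ?_, ?_, ?_⟩
    · rw [mem_joinBd]
      intro j h
      have := h (hf j)
      simp only [Finset.mem_filter, Finset.mem_univ, true_and] at this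
      apply this
      rw [mem_block.1 (hf j)]
    · intro x hx
      simp only [Finset.mem_filter, Finset.mem_univ, true_and]
      intro h
      apply hfσ x.1
      rw [← h]
      exact hx
    · rw [hpart, ← hd]
      apply Finset.sum_congr rfl
      intro j _
      have : (Finset.univ.filter fun x : JV b => x ≠ f x.1) ∩ block b j
          = (block b j).erase (f j) := by
        ext x
        simp only [Finset.mem_inter, Finset.mem_filter, Finset.mem_univ, true_and, mem_block,
          Finset.mem_erase]
        constructor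
        · rintro ⟨h1, h2⟩
          rw [h2] at h1
          exact ⟨h1, h2⟩
        · rintro ⟨h1, h2⟩
          rw [h2]
          exact ⟨h1, rfl⟩
      rw [this, Finset.card_erase_of_mem (hf j), card_block]
  · intro σ hσ
    rw [hpart σ, ← hd]
    exact Finset.sum_le_sum fun j _ => hlt σ hσ j
  · intro σ hσ s
    have hlink : link (joinBd b hb).faces σ = J σᶜ (fun j => block b j \ σ) := by
      ext τ
      rw [mem_link, mem_joinBd, mem_joinBd, mem_J]
      constructor
      · rintro ⟨_, h2, h3⟩
        refine ⟨?_, ?_⟩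
        · intro x hx
          rw [Finset.mem_compl]
          exact Finset.disjoint_left.1 h3 hx
        · intro j h
          apply h2 j
          intro x hx
          rw [Finset.mem_union]
          by_cases hxs : x ∈ σ
          · right; exact hxs
          · left; exact h (Finset.mem_sdiff.2 ⟨hx, hxs⟩)
      · rintro ⟨h1, h2⟩
        refine ⟨?_, ?_, ?_⟩
        · intro j h
          exact h2 j (Finset.sdiff_subset.trans h)
        · intro j h
          apply h2 j
          intro x hx
          rw [Finset.mem_sdiff] at hx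
          rcases Finset.mem_union.1 (h hx.1) with h | h
          · exact h
          · exact absurd h hx.2
        · rw [Finset.disjoint_left]
          intro x hx
          exact Finset.mem_compl.1 (h1 hx)
    rw [hlink]
    have hcard : ∀ j, (block b j \ σ).card = b j - (σ ∩ block b j).card := by
      intro j
      rw [Finset.card_sdiff, card_block]
    have h1 : Sph (J σᶜ (fun j => block b j \ σ)) (d - σ.card) := by
      apply sph_J
      · intro j
        rw [← Finset.card_pos, hcard]
        have := hlt σ hσ j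
        have := hb j
        omega
      · intro i j hij
        rw [Finset.disjoint_left]
        intro x hx hx'
        rw [Finset.mem_sdiff, mem_block] at hx hx'
        exact hij (hx.1.symm.trans hx'.1)
      · intro x
        rw [Finset.mem_compl]
        constructor
        · intro h
          exact ⟨x.1, Finset.mem_sdiff.2 ⟨mem_block.2 rfl, h⟩⟩
        · rintro ⟨j, h⟩
          exact (Finset.mem_sdiff.1 h).2
      · have h2 : ∑ j, ((block b j \ σ).card - 1) + σ.card = d := by
          rw [hpart σ, ← Finset.sum_add_distrib, ← hd]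
          apply Finset.sum_congr rfl
          intro j _
          rw [hcard]
          have := hlt σ hσ j
          have := hb j
          omega
        omega
    rw [betti_of_sph h1]
    have h3 : σ.card ≤ d := by
      rw [hpart σ, ← hd]
      exact Finset.sum_le_sum fun j _ => hlt σ hσ j
    by_cases h4 : s = d - σ.card
    · rw [if_pos h4, if_pos (by omega)]
    · rw [if_neg h4, if_neg (by omega)]

theorem missing_join (hb : ∀ j, 2 ≤ b j) (τ : Finset (JV b)) :
    IsMissing (joinBd b hb) τ ↔ ∃ j, τ = block b j := by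
  constructor
  · rintro ⟨h1, h2⟩
    rw [mem_joinBd] at h1
    push Not at h1
    obtain ⟨j, hj⟩ := h1
    refine ⟨j, ?_⟩
    by_contra h
    have h3 : block b j ⊂ τ := ⟨hj, fun h4 => h (Finset.Subset.antisymm h4 hj)⟩
    have h4 := h2 _ h3
    rw [mem_joinBd] at h4
    exact h4 j subset_rfl
  · rintro ⟨j, rfl⟩
    refine ⟨?_, ?_⟩
    · rw [mem_joinBd]
      push Not
      exact ⟨j, subset_rfl⟩
    · intro ρ hρ
      rw [mem_joinBd]
      intro i h
      by_cases hij : i = j
      · subst hij
        exact hρ.2 h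
      · have h0 : (⟨i, ⟨0, by have := hb i; omega⟩⟩ : JV b) ∈ block b i := mem_block.2 rfl
        have := hρ.1 (h h0)
        rw [mem_block] at this
        exact hij this

/-! ### The `h`-polynomial -/

theorem one_sub_X_ne : (1 - Polynomial.X : Polynomial ℤ) ≠ 0 := by
  intro h
  have := congrArg (fun p => Polynomial.coeff p 0) h
  simp at this

open Polynomial in
theorem sum_ssubsets (n : ℕ) :
    ∑ τ ∈ (Finset.univ : Finset (Fin n)).powerset.erase Finset.univ,
      (X : Polynomial ℤ) ^ τ.card * (1 - X) ^ (n - 1 - τ.card) = ∑ i ∈ Finset.range n, X ^ i := by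
  apply mul_left_cancel₀ one_sub_X_ne
  have h1 : (1 - X : Polynomial ℤ) * ∑ i ∈ Finset.range n, X ^ i = 1 - X ^ n :=
    mul_neg_geom_sum X n
  rw [h1, Finset.mul_sum]
  have h2 := Finset.sum_pow_mul_eq_add_pow (X : Polynomial ℤ) (1 - X)
    (Finset.univ : Finset (Fin n))
  rw [Finset.card_univ, Fintype.card_fin, add_sub_cancel, one_pow] at h2
  rw [← Finset.add_sum_erase _ _ (Finset.mem_powerset_self Finset.univ)] at h2
  rw [Finset.card_univ, Fintype.card_fin, Nat.sub_self, pow_zero, mul_one] at h2
  have h6 : (1 : Polynomial ℤ) - X ^ n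
      = ∑ x ∈ (Finset.univ : Finset (Fin n)).powerset.erase Finset.univ,
        X ^ x.card * (1 - X) ^ (n - x.card) := by linear_combination -h2
  rw [h6]
  apply Finset.sum_congr rfl
  intro τ hτ
  rw [Finset.mem_erase] at hτ
  have h3 : τ.card < n := by
    have h4 : τ ⊂ Finset.univ := lt_of_le_of_ne (Finset.subset_univ τ) hτ.1
    have := Finset.card_lt_card h4
    rwa [Finset.card_univ, Fintype.card_fin] at this
  have h5 : n - τ.card = n - 1 - τ.card + 1 := by omega
  rw [h5, pow_succ]
  ring

open Polynomial in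
theorem hPoly_join (hb : ∀ j, 2 ≤ b j) (d : ℕ) (hd : ∑ j, (b j - 1) = d) :
    hPoly d (joinBd b hb) = ∏ j, ∑ i ∈ Finset.range (b j), (X : Polynomial ℤ) ^ i := by
  have h1 : ∀ j, ∑ i ∈ Finset.range (b j), (X : Polynomial ℤ) ^ i
      = ∑ τ ∈ (Finset.univ : Finset (Fin (b j))).powerset.erase Finset.univ,
      (X : Polynomial ℤ) ^ τ.card * (1 - X) ^ (b j - 1 - τ.card) := by
    intro j
    rw [sum_ssubsets]
  simp_rw [h1]
  rw [Finset.prod_univ_sum]
  unfold hPoly
  symm
  apply Finset.sum_bij' (i := fun p _ => (Finset.univ : Finset (Fin m)).sigma p)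
    (j := fun σ _ => fun j => Finset.univ.filter fun x => (⟨j, x⟩ : JV b) ∈ σ)
  · intro p hp
    rw [mem_joinBd]
    intro j h
    rw [Fintype.mem_piFinset] at hp
    have h2 := (Finset.mem_erase.1 (hp j)).1
    apply h2
    ext x
    simp only [Finset.mem_univ, iff_true]
    have := h (mem_block.2 rfl : (⟨j, x⟩ : JV b) ∈ block b j)
    simpa using this
  · intro σ hσ
    rw [mem_joinBd] at hσ
    rw [Fintype.mem_piFinset]
    intro j
    rw [Finset.mem_erase]
    refine ⟨fun h => hσ j ?_, Finset.mem_powerset.2 (Finset.subset_univ _)⟩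
    rintro ⟨i, x⟩ hx
    rw [mem_block] at hx
    subst hx
    have : x ∈ Finset.univ.filter fun x => (⟨i, x⟩ : JV b) ∈ σ := by
      rw [h]; exact Finset.mem_univ _
    simpa using this
  · intro p hp
    funext j
    ext x
    simp
  · intro σ hσ
    ext ⟨j, x⟩
    simp
  · intro p hp
    rw [Finset.prod_mul_distrib, Finset.prod_pow_eq_pow_sum, Finset.prod_pow_eq_pow_sum,
      Finset.card_sigma]
    congr 2
    rw [← hd]
    rw [Fintype.mem_piFinset] at hp
    have h3 : ∀ j, (p j).card ≤ b j - 1 := by
      intro j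
      have h4 : p j ⊂ Finset.univ :=
        lt_of_le_of_ne (Finset.subset_univ _) (Finset.mem_erase.1 (hp j)).1
      have := Finset.card_lt_card h4
      rw [Finset.card_univ, Fintype.card_fin] at this
      omega
    have h5 : ∑ j, (b j - 1 - (p j).card) + ∑ j, (p j).card = ∑ j, (b j - 1) := by
      rw [← Finset.sum_add_distrib]
      apply Finset.sum_congr rfl
      intro j _
      have := h3 j
      omega
    omega

end join

/-! ### The example -/

open Polynomial in
theorem coeff_geom (n j : ℕ) :
    (∑ i ∈ Finset.range n, (X : Polynomial ℤ) ^ i).coeff j = if j < n then 1 else 0 := by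
  rw [Polynomial.finsetSum_coeff]
  simp only [Polynomial.coeff_X_pow]
  rw [Finset.sum_ite_eq]
  simp

theorem ex_dim {k : ℕ} (hk : 5 ≤ k) : ∑ j, (exSizes k j - 1) = 2 * k := by
  rw [Fin.sum_univ_three]
  simp [exSizes]
  omega

open Polynomial in
theorem ex_h {k : ℕ} (hk : 5 ≤ k) :
    hPoly (2 * k) (joinBd (exSizes k) (exSizes_ge hk))
      = (∑ i ∈ Finset.range k, (X : Polynomial ℤ) ^ i) * (∑ i ∈ Finset.range (k - 1), X ^ i)
        * ∑ i ∈ Finset.range 4, X ^ i := by
  rw [hPoly_join _ _ (ex_dim hk), Fin.prod_univ_three]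
  rfl

open Polynomial in
theorem poly_g {k : ℕ} (hk : 5 ≤ k) (P : Polynomial ℤ)
    (hP : P = (∑ i ∈ Finset.range k, (X : Polynomial ℤ) ^ i) *
      (∑ i ∈ Finset.range (k - 1), X ^ i) * ∑ i ∈ Finset.range 4, X ^ i) :
    P.coeff k - P.coeff (k - 1) = 1 := by
  have h1 : P.coeff k - P.coeff (k - 1) = ((1 - X) * P).coeff k := by
    obtain ⟨l, rfl⟩ : ∃ l, k = l + 1 := ⟨k - 1, by omega⟩
    rw [sub_mul, one_mul, Polynomial.coeff_sub, Polynomial.coeff_X_mul]
    simp
  have hA : ∀ j, (∑ i ∈ Finset.range (k - 1), (X : Polynomial ℤ) ^ i).coeff j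
    = if j < k - 1 then 1 else 0 := coeff_geom (k - 1)
  generalize (∑ i ∈ Finset.range (k - 1), (X : Polynomial ℤ) ^ i) = A at hP hA
  have h2 : (1 - X) * P = (1 - X ^ k) * (A + A * X ^ 1 + A * X ^ 2 + A * X ^ 3) := by
    rw [hP, ← mul_neg_geom_sum X k]
    have : ∑ i ∈ Finset.range 4, (X : Polynomial ℤ) ^ i = 1 + X + X ^ 2 + X ^ 3 := by
      simp [Finset.sum_range_succ]
    rw [this]
    ring
  have h3 : ∀ j, (A + A * X ^ 1 + A * X ^ 2 + A * X ^ 3).coeff j = A.coeff j +
      (if 1 ≤ j then A.coeff (j - 1) else 0) + (if 2 ≤ j then A.coeff (j - 2) else 0) +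
      (if 3 ≤ j then A.coeff (j - 3) else 0) := by
    intro j
    rw [Polynomial.coeff_add, Polynomial.coeff_add, Polynomial.coeff_add,
      Polynomial.coeff_mul_X_pow', Polynomial.coeff_mul_X_pow', Polynomial.coeff_mul_X_pow']
  have e0 : A.coeff k = 0 := by rw [hA, if_neg (by omega)]
  have e1 : A.coeff (k - 1) = 0 := by rw [hA, if_neg (by omega)]
  have e2 : A.coeff (k - 2) = 1 := by rw [hA, if_pos (by omega)]
  have e3 : A.coeff (k - 3) = 1 := by rw [hA, if_pos (by omega)]
  have e4 : A.coeff 0 = 1 := by rw [hA, if_pos (by omega)]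
  have h4 : (A + A * X ^ 1 + A * X ^ 2 + A * X ^ 3).coeff k = 2 := by
    rw [h3, if_pos (by omega), if_pos (by omega), if_pos (by omega), e0, e1, e2, e3]
    norm_num
  have h5 : (A + A * X ^ 1 + A * X ^ 2 + A * X ^ 3).coeff 0 = 1 := by
    rw [h3, if_neg (by omega), if_neg (by omega), if_neg (by omega), e4]
    norm_num
  rw [h1, h2, sub_mul, one_mul, Polynomial.coeff_sub, Polynomial.coeff_X_pow_mul', h4,
    if_pos le_rfl, Nat.sub_self, h5]
  norm_num

theorem ex_g {k : ℕ} (hk : 5 ≤ k) :
    gNum (2 * k) (joinBd (exSizes k) (exSizes_ge hk)) k = 1 := by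
  unfold gNum
  exact poly_g hk _ (ex_h hk)

theorem iso_missing {V W : Type} [Fintype V] [DecidableEq V] [Fintype W] [DecidableEq W]
    {X : Cplx V} {Y : Cplx W} {e : V ≃ W}
    (he : ∀ σ : Finset V, σ ∈ X.faces ↔ σ.map e.toEmbedding ∈ Y.faces) (τ : Finset V)
    (h : IsMissing Y (τ.map e.toEmbedding)) : IsMissing X τ := by
  refine ⟨fun h1 => h.1 ((he τ).1 h1), fun ρ hρ => ?_⟩
  rw [he]
  exact h.2 _ (Finset.map_ssubset_map.2 hρ)

theorem card_missing_ex {k : ℕ} (hk : 5 ≤ k) {τ τ' : Finset (JV (exSizes k))}
    (h : IsMissing (joinBd (exSizes k) (exSizes_ge hk)) τ)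
    (h' : IsMissing (joinBd (exSizes k) (exSizes_ge hk)) τ') (hne : τ ≠ τ')
    (hc : τ.card = τ'.card) : k = 5 ∧ τ.card = 4 := by
  rw [missing_join] at h h'
  obtain ⟨i, rfl⟩ := h
  obtain ⟨j, rfl⟩ := h'
  have hij : i ≠ j := fun h => hne (by rw [h])
  rw [card_block, card_block] at hc
  rw [card_block]
  fin_cases i <;> fin_cases j <;> simp [exSizes] at hc hij ⊢ <;> omega

theorem K_two_missing {i d : ℕ} (hi : 1 ≤ i) (hd : 1 ≤ d) (h : 2 ≤ (d - 1) / i) :
    ∃ τ τ' : Finset (JV (kSizes i d)), IsMissing (K i d hi hd) τ ∧ IsMissing (K i d hi hd) τ' ∧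
      τ ≠ τ' ∧ τ.card = i + 1 ∧ τ'.card = i + 1 := by
  refine ⟨block _ ⟨0, by omega⟩, block _ ⟨1, by omega⟩, ?_, ?_, ?_, ?_, ?_⟩
  · exact (missing_join _ _).2 ⟨_, rfl⟩
  · exact (missing_join _ _).2 ⟨_, rfl⟩
  · intro h1
    have h2 : (⟨⟨0, by omega⟩, ⟨0, by have := kSizes_ge hi hd ⟨0, by omega⟩; omega⟩⟩ :
        JV (kSizes i d)) ∈ block (kSizes i d) ⟨0, by omega⟩ := mem_block.2 rfl
    rw [h1, mem_block] at h2
    simp at h2
  · rw [card_block]
    simp only [kSizes]
    rw [if_pos (by omega)]
  · rw [card_block]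
    simp only [kSizes]
    rw [if_pos (by omega)]

/-- **Disproof of Q1 of MP_1b21e4_co.** For every `k ≥ 5` the join `Δ` of the boundary complexes of
simplices with `k`, `k - 1` and `4` vertices lies in `S(k-1, 2k-1)` and has `g_k(Δ) = 1`, but it is
not isomorphic to `K(i, 2k-1)` for any integer `i` with `2k/3 ≤ i < k`. -/
theorem result : ∀ k : ℕ, ∀ hk : 5 ≤ k,
    InS (k - 1) (2 * k) (joinBd (exSizes k) (exSizes_ge hk)) ∧
    gNum (2 * k) (joinBd (exSizes k) (exSizes_ge hk)) k = 1 ∧
    ∀ i : ℕ, ∀ hi : 1 ≤ i, ∀ hd : 1 ≤ 2 * k, 2 * k ≤ 3 * i → i < k →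
      ¬ Iso (joinBd (exSizes k) (exSizes_ge hk)) (K i (2 * k) hi hd) := by
  intro k hk
  refine ⟨⟨sphere_join _ _ (ex_dim hk), ?_⟩, ex_g hk, ?_⟩
  · intro τ hτ
    rw [missing_join] at hτ
    obtain ⟨j, rfl⟩ := hτ
    rw [card_block]
    fin_cases j <;> simp [exSizes] <;> omega
  · rintro i hi hd h1 h2 ⟨e, he⟩
    have hq : 2 ≤ (2 * k - 1) / i := by
      rw [Nat.le_div_iff_mul_le hi]
      omega
    obtain ⟨τ, τ', hτ, hτ', hne, hc, hc'⟩ := K_two_missing hi hd hq
    have hm : ∀ ρ : Finset (JV (kSizes i (2 * k))),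
        (ρ.map e.symm.toEmbedding).map e.toEmbedding = ρ := by
      intro ρ
      ext x
      simp
    have h3 := iso_missing he (τ.map e.symm.toEmbedding) (by rw [hm]; exact hτ)
    have h4 := iso_missing he (τ'.map e.symm.toEmbedding) (by rw [hm]; exact hτ')
    have h5 := card_missing_ex hk h3 h4
      (fun h => hne (Finset.map_injective _ h)) (by rw [Finset.card_map, Finset.card_map, hc, hc'])
    rw [Finset.card_map, hc] at h5
    omega

end Pool.Agent.Results.MP_1b21e4_co.ThreeJoin
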